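import Pool.Agent.U583.ON.Effective

/-!
# Infinite algebraic extensions

Let `K` be a separable algebraic extension of the field `k`, not necessarily finite. An algebra of finite
type over `K` is a direct factor of `K ⊗_k B'` for an algebra `B'` of finite type over `k`.
-/

set_option autoImplicit false

open CategoryTheory CategoryTheory.Limits AlgebraicGeometry MvPolynomial TensorProduct
open Pool.Agent.Y116.UV Pool.Agent.R904.CU

namespace Pool.Agent.U583.CF

open Pool.Agent.U583.ON

/-- extension of scalars for a presentation by a set of polynomials -/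
theorem base_change_set {k : Type} [Field k] (F : Type) [Field F] [Algebra k F] {N : ℕ}
    (s : Set (MvPolynomial (Fin N) k)) :
    Nonempty ((MvPolynomial (Fin N) F ⧸ Ideal.span (map (algebraMap k F) '' s)) ≃ₐ[F]
      (F ⊗[k] (MvPolynomial (Fin N) k ⧸ Ideal.span s))) := by
  let e2 := Algebra.TensorProduct.tensorQuotientEquiv (R := k) F (MvPolynomial (Fin N) k) F
    (Ideal.span s)
  let e3 : F ⊗[k] MvPolynomial (Fin N) k ≃ₐ[F] MvPolynomial (Fin N) F :=
    MvPolynomial.algebraTensorAlgEquiv k F
  have h : Ideal.span (map (algebraMap k F) '' s) =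
      ((Ideal.span s).map (Algebra.TensorProduct.includeRight :
        MvPolynomial (Fin N) k →ₐ[k] F ⊗[k] MvPolynomial (Fin N) k)).map
        (e3 : F ⊗[k] MvPolynomial (Fin N) k →+* MvPolynomial (Fin N) F) := by
    rw [Ideal.map_span, Ideal.map_span, ← Set.image_comp]
    congr 1
    apply Set.image_congr
    intro l _
    change map (algebraMap k F) l = e3 ((1 : F) ⊗ₜ[k] l)
    rw [MvPolynomial.algebraTensorAlgEquiv_tmul, one_smul]
  have e4 := Ideal.quotientEquivAlg _ _ e3 h
  exact ⟨e4.symm.trans e2.symm⟩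

variable (k K : Type) [Field k] [Field K] [Algebra k K] [Algebra.IsSeparable k K]

/-- finitely many polynomials have coefficients in a finite subextension -/
theorem exists_coeffs {N : ℕ} (s : Finset (MvPolynomial (Fin N) K)) :
    ∃ L : IntermediateField k K, FiniteDimensional k L ∧
      ∀ f ∈ s, ∃ f' : MvPolynomial (Fin N) L, map (algebraMap L K) f' = f := by
  classical
  let c : Set K := ⋃ f ∈ s, (f.coeffs : Set K)
  have hc : c.Finite := s.finite_toSet.biUnion fun f _ => f.coeffs.finite_toSet
  refine ⟨IntermediateField.adjoin k c, ?_, fun f hf => ?_⟩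
  · have := hc.to_subtype
    exact IntermediateField.finiteDimensional_adjoin fun x _ =>
      (Algebra.IsSeparable.isAlgebraic k K).isAlgebraic x |>.isIntegral
  · have h1 : f ∈ Set.range (map (algebraMap (IntermediateField.adjoin k c) K)) := by
      rw [MvPolynomial.mem_range_map_iff_coeffs_subset]
      intro x hx
      exact ⟨⟨x, IntermediateField.subset_adjoin k c (Set.mem_biUnion hf hx)⟩, rfl⟩
    exact h1

/-- the relative form of the factor -/
theorem factor_rel (L : Type) [Field L] [Algebra k L] [Algebra L K] [IsScalarTower k L K]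
    [FiniteDimensional k L] [Algebra.IsSeparable k L] (B' : Type) [CommRing B'] [Algebra L B']
    [Algebra k B'] [IsScalarTower k L B'] [Algebra.FiniteType k B'] :
    ∃ (D : Type) (_ : CommRing D) (_ : Algebra K D) (_ : Algebra.FiniteType K D),
      Nonempty ((K ⊗[k] B') ≃ₐ[K] (K ⊗[L] B') × D) := by
  obtain ⟨e3⟩ := factor k L B'
  have hft2 : Algebra.FiniteType L (L ⊗[k] B') := Algebra.FiniteType.baseChange L
  have hft3 : Algebra.FiniteType L ((L ⊗[k] B') ⧸ Ideal.span {idem k L B'}) :=
    Algebra.FiniteType.of_surjective (Ideal.Quotient.mkₐ L (Ideal.span {idem k L B'}))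
      (Ideal.Quotient.mkₐ_surjective L _)
  have hft4 : Algebra.FiniteType K (K ⊗[L] ((L ⊗[k] B') ⧸ Ideal.span {idem k L B'})) :=
    Algebra.FiniteType.baseChange K
  refine ⟨K ⊗[L] ((L ⊗[k] B') ⧸ Ideal.span {idem k L B'}), inferInstance, inferInstance, hft4, ?_⟩
  let e4 : K ⊗[L] (L ⊗[k] B') ≃ₐ[K] K ⊗[k] B' := Algebra.TensorProduct.cancelBaseChange k L K K B'
  let e5 : K ⊗[L] (L ⊗[k] B') ≃ₐ[K] K ⊗[L] (B' × ((L ⊗[k] B') ⧸ Ideal.span {idem k L B'})) :=
    Algebra.TensorProduct.congr AlgEquiv.refl e3
  let e6 : K ⊗[L] (B' × ((L ⊗[k] B') ⧸ Ideal.span {idem k L B'})) ≃ₐ[K]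
      (K ⊗[L] B') × (K ⊗[L] ((L ⊗[k] B') ⧸ Ideal.span {idem k L B'})) :=
    Algebra.TensorProduct.prodRight L K K B' _
  exact ⟨e4.symm.trans (e5.trans e6)⟩

/-- An algebra of finite type over `K` comes from an algebra over a finite subextension. -/
theorem exists_model (B : Type) [CommRing B] [Algebra K B] [Algebra.FiniteType K B] :
    ∃ (L : IntermediateField k K) (_ : FiniteDimensional k L) (B' : Type) (_ : CommRing B')
      (_ : Algebra L B') (_ : Algebra.FiniteType L B'), Nonempty ((K ⊗[L] B') ≃ₐ[K] B) := by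
  classical
  obtain ⟨N, φ, hφ⟩ := (Algebra.FiniteType.iff_quotient_mvPolynomial'').1
    (inferInstance : Algebra.FiniteType K B)
  obtain ⟨s, hs⟩ := (inferInstance : IsNoetherianRing (MvPolynomial (Fin N) K)).noetherian
    (RingHom.ker φ)
  obtain ⟨L, hL, hcoef⟩ := exists_coeffs k K s
  choose! f' hf' using hcoef
  have hs' : map (algebraMap L K) '' (f' '' (s : Set (MvPolynomial (Fin N) K))) =
      (s : Set (MvPolynomial (Fin N) K)) := by
    rw [← Set.image_comp]
    ext x
    constructor
    · rintro ⟨y, hy, rfl⟩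
      change map (algebraMap L K) (f' y) ∈ _
      rw [hf' y hy]
      exact hy
    · intro hx
      exact ⟨x, hx, hf' x hx⟩
  obtain ⟨e2⟩ := base_change_set K (f' '' (s : Set (MvPolynomial (Fin N) K)))
  rw [hs'] at e2
  let e1 : (MvPolynomial (Fin N) K ⧸ Ideal.span (s : Set (MvPolynomial (Fin N) K))) ≃ₐ[K] B :=
    (Ideal.quotientEquivAlgOfEq K hs).trans (Ideal.quotientKerAlgEquivOfSurjective hφ)
  exact ⟨L, hL, _, inferInstance, inferInstance, inferInstance, ⟨e2.symm.trans e1⟩⟩

/-- An algebra of finite type over `K` is a direct factor of the base change of an algebra of finite type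
over `k`. -/
theorem exists_factor (B : Type) [CommRing B] [Algebra K B] [Algebra.FiniteType K B] :
    ∃ (B' : Type) (_ : CommRing B') (_ : Algebra k B') (_ : Algebra.FiniteType k B')
      (D : Type) (_ : CommRing D) (_ : Algebra K D) (_ : Algebra.FiniteType K D),
      Nonempty ((K ⊗[k] B') ≃ₐ[K] B × D) := by
  obtain ⟨L, hL, B', _, _, _, ⟨e1⟩⟩ := exists_model k K B
  letI : Algebra k B' := ((algebraMap L B').comp (algebraMap k L)).toAlgebra
  have hst : IsScalarTower k L B' := IsScalarTower.of_algebraMap_eq fun _ => rfl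
  have hft : Algebra.FiniteType k B' := Algebra.FiniteType.trans (S := L) inferInstance inferInstance
  obtain ⟨D, _, _, _, ⟨e2⟩⟩ := factor_rel k K L B'
  exact ⟨B', inferInstance, inferInstance, hft, D, inferInstance, inferInstance, inferInstance,
    ⟨e2.trans (AlgEquiv.prodCongr e1 AlgEquiv.refl)⟩⟩

end Pool.Agent.U583.CF
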