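import Pool.Agent.U583.CF.Descend

/-!
# Constituents over an infinite algebraic extension and cubic hypersurfaces with coefficients in `G`
-/

set_option autoImplicit false

open CategoryTheory CategoryTheory.Limits AlgebraicGeometry MvPolynomial TensorProduct
open Pool.Agent.Y116.UV Pool.Agent.R904.CU Pool.Agent.U583.ON Pool.Agent.U583.MW

namespace Pool.Agent.U583.CF

universe v u

variable {k K : Type} [Field k] [Field K] [Algebra k K] [Algebra.IsSeparable k K] {G : Set k}

/-- All simple constituents of the cohomology with compact support of the scheme `X` over `K` are, up to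
the twist `(-m)`, constituents of the cohomology of one cubic hypersurface `∑ y_l g_l(x) = 1` with
elementary polynomials `g_l` over `k`. -/
theorem exists_cubK (hG : Subfield.closure G = ⊤) (X : Sch K) (hX : FT True X) (n₀ : ℤ) :
    ∃ (N m : ℕ) (g : Fin (m + 1) → MvPolynomial (Fin N) k),
      (∀ l, IsElementary (insert 1 G) (g l)) ∧
      ∀ {𝒜 : Type u} [Category.{v} 𝒜] [Abelian 𝒜] (H : Coh 𝒜 K), IsAdditive H →
        ∀ n : ℤ, n ≤ n₀ → ∀ A : 𝒜, Simple A → IsSubquotient A (H.H n X) →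
          IsSubquotient (tpow H.T m A) (H.H (n + 1 + 2 * m) (cubF K g)) := by
  obtain ⟨B, _, _, _, hB⟩ := exists_affine.{v, u} X hX
  obtain ⟨B', _, _, _, D, _, _, _, ⟨e2⟩⟩ := exists_factor k K B
  obtain ⟨N, m, g, hN, hg, ⟨e⟩⟩ := exists_elementary_ge (Set.mem_insert _ _)
    (gen_of_closure k G hG) B' (n₀.toNat + 1)
  obtain ⟨e1⟩ := base_change K g e
  have hft2 : Algebra.FiniteType K (K ⊗[k] B') := inferInstance
  refine ⟨N, m, g, hg, fun {𝒜} _ _ H hH n hn0 A hA hs => ?_⟩
  have := H.twist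
  obtain ⟨e3⟩ := hH n B D
  obtain ⟨e4⟩ := H.iso n _ _ (ft_aff True) ⟨affIso e2⟩
  have h1 : IsSubquotient A (H.H n (aff K (K ⊗[k] B'))) :=
    (((hB H hH n A hA hs).mono biprod.inl inferInstance).iso_right ⟨e3.symm⟩).iso_right ⟨e4⟩
  obtain ⟨e5⟩ := nose_pres (fun l => map (algebraMap k K) (g l)) ⟨e1⟩ H n (by omega)
  exact (h1.tpow H.T m).iso_right ⟨e5.symm⟩

/-- several schemes, one cubic hypersurface -/
theorem exists_cubK_list (hG : Subfield.closure G = ⊤) {r : ℕ} (X : Fin r → Sch K)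
    (hX : ∀ s, FT True (X s)) (n₀ : ℤ) :
    ∃ (N m : ℕ) (g : Fin (m + 1) → MvPolynomial (Fin N) k),
      (∀ l, IsElementary (insert 1 G) (g l)) ∧
      ∀ {𝒜 : Type u} [Category.{v} 𝒜] [Abelian 𝒜] (H : Coh 𝒜 K), IsAdditive H →
        ∀ n : ℤ, n ≤ n₀ → ∀ A : 𝒜, Simple A → (∃ s, IsSubquotient A (H.H n (X s))) →
          IsSubquotient (tpow H.T m A) (H.H (n + 1 + 2 * m) (cubF K g)) := by
  have key : ∃ (B : Type) (_ : CommRing B) (_ : Algebra K B) (_ : Algebra.FiniteType K B),
      ∀ {𝒜 : Type u} [Category.{v} 𝒜] [Abelian 𝒜] (H : Coh 𝒜 K), IsAdditive H →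
        ∀ (n : ℤ) (A : 𝒜), Simple A → (∃ s, IsSubquotient A (H.H n (X s))) →
          IsSubquotient A (H.H n (aff K B)) := by
    induction r with
    | zero =>
      refine ⟨K, inferInstance, inferInstance, inferInstance, fun {𝒜} _ _ H hH n A hA hs => ?_⟩
      obtain ⟨s, -⟩ := hs
      exact s.elim0
    | succ r ih =>
      obtain ⟨B, _, _, _, hB⟩ := ih (fun s => X s.castSucc) (fun s => hX _)
      obtain ⟨C, _, _, _, hC⟩ := exists_affine.{v, u} (X (Fin.last r)) (hX _)
      refine ⟨B × C, inferInstance, inferInstance, inferInstance,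
        fun {𝒜} _ _ H hH n A hA hs => ?_⟩
      obtain ⟨e⟩ := hH n B C
      obtain ⟨s, hs⟩ := hs
      rcases Fin.eq_castSucc_or_eq_last s with ⟨t, rfl⟩ | rfl
      · exact (hB H hH n A hA ⟨t, hs⟩).mono (biprod.inl ≫ e.inv) inferInstance
      · exact (hC H hH n A hA hs).mono (biprod.inr ≫ e.inv) inferInstance
  obtain ⟨B, _, _, _, hB⟩ := key
  obtain ⟨N, m, g, hg, h⟩ := exists_cubK.{v, u} hG (aff K B) (ft_aff True) n₀
  exact ⟨N, m, g, hg, fun {𝒜} _ _ H hH n hn A hA hs => h H hH n hn A hA (hB H hH n A hA hs)⟩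

variable {𝒜 : Type u} [Category.{v} 𝒜] [Abelian 𝒜] {H : Coh 𝒜 K}

open Opposite in
/-- A simple constituent of the cohomology of a separated scheme of finite type is dual to a constituent
`E` of the cohomology with compact support of a scheme `X`; if `E` is a constituent of the cohomology with
compact support of a cubic hypersurface, then `A` is one of its cohomology. -/
theorem geometric_pre (O : Ordinary H) {A : 𝒜} (hA : Simple A) (h : Geometric O (FT True) A) :
    ∃ (X : Sch K) (n : ℤ) (E : 𝒜), FT True X ∧ Simple E ∧ IsSubquotient E (H.H n X) ∧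
      ∀ (N m : ℕ) (g : Fin (m + 1) → MvPolynomial (Fin N) k) (j : ℤ),
        IsSubquotient (tpow H.T m E) (H.H j (cubF K g)) →
          ∃ i : ℤ, Occurs H.T A (O.Hu i (cubF K g)) := by
  have := H.twist
  have := O.equivalence
  obtain ⟨Y, hY, i, a, b, h⟩ := h
  obtain ⟨A', hA', hs, ht⟩ := Occurs.exists_sub (T := H.T) (A := A) ⟨a, b, h⟩
  obtain ⟨X, d, n, hX, hsm, hs2⟩ := O.alteration Y i A' hY hA' hs
  have hd := O.duality X d (2 * d - n) hX hsm
  rw [sub_sub_cancel] at hd
  have h2 : Occurs H.T A' (O.dual.obj (op (H.H (2 * d - n) X))) := by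
    rw [← Occurs.tpow_right d]
    exact (Occurs.of_sub hs2).iso_right hd
  obtain ⟨A'', hA'', hs3, ht3⟩ := h2.exists_sub
  obtain ⟨E, hE, ⟨e⟩⟩ := exists_dual O.dual A''
  have h4 : IsSubquotient E (H.H (2 * d - n) X) := (hs3.iso_left ⟨e.symm⟩).of_dual O.dual
  refine ⟨X, 2 * d - n, E, hX, hE, h4, fun N m g j hj => ?_⟩
  have h5 : Occurs H.T E (H.H j (cubF K g)) := ⟨m, 0, hj⟩
  have h6 := O.duality (cubF K g) (m + N) j (ft_cubS _) (smooth_cubS _)
  have h7 := h5.dual O
  rw [← Occurs.tpow_right (m + N)] at h7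
  exact ⟨_, ht _ (ht3 _ ((h7.iso_left ⟨e⟩).iso_right ⟨h6.some.symm⟩))⟩

/-- finitely many simple objects, cohomology without supports -/
theorem geometric_list (hG : Subfield.closure G = ⊤) (hadd : IsAdditive H) (O : Ordinary H) {r : ℕ}
    (A : Fin r → 𝒜) (hA : ∀ s, Simple (A s)) (h : ∀ s, Geometric O (FT True) (A s)) :
    ∃ (N m : ℕ) (g : Fin (m + 1) → MvPolynomial (Fin N) k),
      (∀ l, IsElementary (insert 1 G) (g l)) ∧
        ∀ s, ∃ i : ℤ, Occurs H.T (A s) (O.Hu i (cubF K g)) := by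
  choose X n E hX hE hs hcub using fun s => geometric_pre (k := k) O (hA s) (h s)
  obtain ⟨N, m, g, hg, hn⟩ := exists_cubK_list.{v, u} hG X hX (∑ s, |n s|)
  refine ⟨N, m, g, hg, fun s => hcub s N m g _ (hn H hadd (n s) ?_ (E s) (hE s) ⟨s, hs s⟩)⟩
  exact (le_abs_self _).trans
    (Finset.single_le_sum (f := fun s => |n s|) (fun _ _ => abs_nonneg _) (Finset.mem_univ s))

/-- finitely many simple objects, cohomology with compact support -/
theorem effective_list (hG : Subfield.closure G = ⊤) (hadd : IsAdditive H) {r : ℕ}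
    (A : Fin r → 𝒜) (hA : ∀ s, Simple (A s)) (h : ∀ s, Effective H (A s)) :
    ∃ (N m : ℕ) (g : Fin (m + 1) → MvPolynomial (Fin N) k),
      (∀ l, IsElementary (insert 1 G) (g l)) ∧
        ∀ s, ∃ j : ℤ, IsSubquotient (tpow H.T m (A s)) (H.H j (cubF K g)) := by
  choose X n hX hs using h
  obtain ⟨N, m, g, hg, hn⟩ := exists_cubK_list.{v, u} hG X (fun s => (hX s).ft) (∑ s, |n s|)
  refine ⟨N, m, g, hg, fun s => ⟨_, hn H hadd (n s) ?_ (A s) (hA s) ⟨s, hs s⟩⟩⟩
  exact (le_abs_self _).trans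
    (Finset.single_le_sum (f := fun s => |n s|) (fun _ _ => abs_nonneg _) (Finset.mem_univ s))

/-- the field `ℚ(t_1, …, t_d)` -/
abbrev RatFun (d : ℕ) : Type := FractionRing (MvPolynomial (Fin d) ℚ)

/-- the elements `1, t_1, …, t_d` of `ℚ(t_1, …, t_d)` -/
def ts (d : ℕ) : Set (RatFun d) :=
  insert 1 (Set.range fun i : Fin d => algebraMap (MvPolynomial (Fin d) ℚ) (RatFun d) (X i))

lemma closure_ts (d : ℕ) : Subfield.closure
    (Set.range fun i : Fin d => algebraMap (MvPolynomial (Fin d) ℚ) (RatFun d) (X i)) = ⊤ := by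
  rw [eq_top_iff]
  have key : ∀ p : MvPolynomial (Fin d) ℚ, algebraMap (MvPolynomial (Fin d) ℚ) (RatFun d) p ∈
      Subfield.closure
        (Set.range fun i : Fin d => algebraMap (MvPolynomial (Fin d) ℚ) (RatFun d) (X i)) := by
    intro p
    induction p using MvPolynomial.induction_on with
    | C a =>
      have h : algebraMap (MvPolynomial (Fin d) ℚ) (RatFun d) (C a) = ((a : ℚ) : RatFun d) :=
        eq_ratCast ((algebraMap (MvPolynomial (Fin d) ℚ) (RatFun d)).comp C) a
      rw [h]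
      exact SubfieldClass.ratCast_mem _ a
    | add p q hp hq =>
      rw [map_add]
      exact add_mem hp hq
    | mul_X p i hp =>
      rw [map_mul]
      exact mul_mem hp (Subfield.subset_closure ⟨i, rfl⟩)
  intro x _
  obtain ⟨a, b, -, rfl⟩ := IsFractionRing.div_surjective (A := MvPolynomial (Fin d) ℚ) x
  exact div_mem (key a) (key b)

lemma tpow_trivial {T : 𝒜 ⥤ 𝒜} (hT : ∀ A : 𝒜, Nonempty (T.obj A ≅ A)) (m : ℕ) (A : 𝒜) :
    Nonempty (tpow T m A ≅ A) := by
  induction m with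
  | zero => exact ⟨Iso.refl _⟩
  | succ m ih =>
    unfold ON.tpow at *
    rw [Function.iterate_succ_apply' T.obj m A]
    obtain ⟨e⟩ := ih
    obtain ⟨e'⟩ := hT (T.obj^[m] A)
    exact ⟨e' ≪≫ e⟩

/-- The comparison of the cohomology `H^n` with the cohomology with compact support: they agree for proper
schemes, and the simple constituents of `H^n(Y)`, `Y` separated of finite type, are effective. Both are
known for the flat bundles given by the cohomology of the fibres (Deligne). -/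
structure Compares {H : Coh 𝒜 K} (O : Ordinary H) : Prop where
  proper : ∀ (n : ℤ) (X : Sch K), IsProper X.hom → Nonempty (O.Hu n X ≅ H.H n X)
  weights : ∀ (Y : Sch K) (n : ℤ) (A : 𝒜), FT True Y → Simple A → IsSubquotient A (O.Hu n Y) →
    Effective H A

lemma occurs_trivial {T : 𝒜 ⥤ 𝒜} (hT : ∀ A : 𝒜, Nonempty (T.obj A ≅ A)) {A B : 𝒜}
    (h : Occurs T A B) : IsSubquotient A B := by
  obtain ⟨a, b, h⟩ := h
  exact (h.iso_left ⟨(tpow_trivial hT a A).some.symm⟩).iso_right ⟨(tpow_trivial hT b B).some⟩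

end Pool.Agent.U583.CF
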